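import Pool.Agent.helper83.LS.Spec

set_option autoImplicit false

/-! # Project ls, module DP: the property P in the other directions -/

namespace LSH

theorem DP_fx (z : Pt) : fx (fx z) = z := by
  simp [fx]

theorem DP_sw (z : Pt) : sw (sw z) = z := rfl

theorem DP_imx (S : Finset Pt) : (S.image fx).image fx = S := by
  rw [Finset.image_image]
  have h : (fx ∘ fx) = id := funext fun z => DP_fx z
  rw [h, Finset.image_id]

theorem DP_ims (S : Finset Pt) : (S.image sw).image sw = S := by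
  rw [Finset.image_image]
  have h : (sw ∘ sw) = id := funext fun z => DP_sw z
  rw [h, Finset.image_id]

theorem DP_left (hSM : SM_stmt) (hGI : GI_stmt) (t : BT) (ht : PP t) (S : Finset Pt) (p : Pt)
    (hc : S.card = t.size) (hG : Gen (insert p (S : Set Pt))) (hp : ∀ s ∈ S, s.1 < p.1) :
    ∃ d, Att p true t S d := by
  obtain ⟨⟨hG1, hc1⟩, -, -⟩ := hGI p S hG
  obtain ⟨d, hd⟩ := ht (S.image fx) (fx p) (hc1.trans hc) hG1 (by
    intro s hs
    obtain ⟨s', hs', rfl⟩ := Finset.mem_image.mp hs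
    have := hp s' hs'
    show -p.1 < -s'.1
    linarith)
  have h := hSM.1 _ _ _ _ _ hd
  rw [DP_fx, DP_imx] at h
  exact ⟨_, h⟩

theorem DP (hSM : SM_stmt) (hGI : GI_stmt) : DP_stmt := by
  intro t ht S p hc hG
  obtain ⟨-, -, ⟨hG3, hc3⟩⟩ := hGI p S hG
  refine ⟨DP_left hSM hGI t ht S p hc hG, fun hp => ?_, fun hp => ?_⟩
  · obtain ⟨d, hd⟩ := ht (S.image sw) (sw p) (hc3.trans hc) hG3 (by
      intro s hs
      obtain ⟨s', hs', rfl⟩ := Finset.mem_image.mp hs
      exact hp s' hs')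
    have h := hSM.2.2.1 _ _ _ _ _ hd
    rw [DP_sw, DP_ims] at h
    exact ⟨_, h⟩
  · obtain ⟨d, hd⟩ := DP_left hSM hGI t ht (S.image sw) (sw p) (hc3.trans hc) hG3 (by
      intro s hs
      obtain ⟨s', hs', rfl⟩ := Finset.mem_image.mp hs
      exact hp s' hs')
    have h := hSM.2.2.1 _ _ _ _ _ hd
    rw [DP_sw, DP_ims] at h
    exact ⟨_, h⟩

end LSH

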